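import Pool.Agent.helper1.VD.SpecA2
import Pool.Agent.helper92.VD.ACTD

/-!
# Project VD (MP_07c750_an), row AWCT: the cut-off `WX`
-/

set_option autoImplicit false

open scoped ContDiff Topology InnerProductSpace ComplexConjugate ENNReal
open MeasureTheory Filter Set

namespace Pool.Agent.VD

open Pool.Agent.VQ (CH)

noncomputable section

theorem AWCT_proof : AWCT_stmt := by
  intro d ch K h
  obtain ⟨C1, hC1, h1⟩ := ACTD_cutb d h K
  refine ⟨C1, hC1, ?_⟩
  intro ζ R hζ hζ2 hR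
  have hR0 : 0 < R := by linarith
  set l : ℝ := R ^ (1 / 2 - ζ) with hl
  set m : ℝ := R ^ (1 / 2 : ℝ) with hm
  have hl0 : 0 < l := Real.rpow_pos_of_pos hR0 _
  have hm0 : 0 < m := Real.rpow_pos_of_pos hR0 _
  have hlm : l ≤ m := Real.rpow_le_rpow_of_exponent_le hR (by linarith)
  have hl2 : l ^ 2 = R ^ (1 - 2 * ζ) := by
    rw [hl, ← Real.rpow_natCast, ← Real.rpow_mul hR0.le]
    congr 1
    push_cast
    ring
  have hli : R ^ (-(1 / 2) + ζ) = l⁻¹ := by
    rw [hl, ← Real.rpow_neg hR0.le]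
    congr 1
    ring
  have eW : (WX ch ζ R : V d → ℂ) = fun v : V d => ((ch (R ^ (1 - 2 * ζ) * ‖v‖ ^ 2) : ℝ) : ℂ) := rfl
  have e1 : (fun v : V d => ch (R ^ (1 - 2 * ζ) * ‖v‖ ^ 2)) = fun v : V d => ch (‖l • v‖ ^ 2) := by
    funext v
    rw [norm_smul, Real.norm_eq_abs, abs_of_pos hl0, mul_pow, hl2]
  have s1 : ContDiff ℝ ∞ (fun v : V d => ch (‖l • v‖ ^ 2)) :=
    (ACTD_cut d h).comp (contDiff_const_smul l)
  have s1' : ContDiff ℝ ∞ (fun v : V d => ch (R ^ (1 - 2 * ζ) * ‖v‖ ^ 2)) := by rw [e1]; exact s1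
  have b1 := ACTD_scale (ACTD_cut d h) (by linarith : 0 ≤ C1) hl0.le hlm h1
  have one : ∀ v : V d, ‖v‖ < l⁻¹ / 2 → WX ch ζ R v = 1 := by
    intro v hv
    have h2 : ch (R ^ (1 - 2 * ζ) * ‖v‖ ^ 2) = 1 := by
      apply h.one
      have a1 : l * ‖v‖ ≤ 1 / 2 := by
        calc l * ‖v‖ ≤ l * (l⁻¹ / 2) := mul_le_mul_of_nonneg_left hv.le hl0.le
          _ = 1 / 2 := by field_simp
      rw [← hl2, ← mul_pow]
      have a2 : 0 ≤ l * ‖v‖ := by positivity
      nlinarith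
    rw [eW]
    simp only [h2, Complex.ofReal_one]
  have zero : ∀ v : V d, l⁻¹ < ‖v‖ → WX ch ζ R v = 0 := by
    intro v hv
    have h2 : ch (R ^ (1 - 2 * ζ) * ‖v‖ ^ 2) = 0 := by
      apply h.zero
      have a1 : 1 < l * ‖v‖ := by
        rw [inv_lt_iff_one_lt_mul₀ hl0] at hv
        linarith
      rw [← hl2, ← mul_pow]
      nlinarith
    rw [eW]
    simp only [h2, Complex.ofReal_zero]
  rw [hli]
  refine ⟨?_, ?_, ?_, ?_, ?_, ?_⟩
  · exact Complex.ofRealCLM.contDiff.comp s1'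
  · intro v
    have h2 := h.bd (R ^ (1 - 2 * ζ) * ‖v‖ ^ 2)
    rw [eW]
    simp only [Complex.norm_real, Real.norm_eq_abs]
    rw [abs_of_nonneg h2.1]
    exact h2.2
  · intro v hv
    by_contra hcon
    rw [not_le] at hcon
    exact hv (zero v hcon)
  · intro k hk v
    rw [eW, ACTD_ofReal s1' k v, e1]
    exact b1 k hk v
  · intro v hv
    filter_upwards [(isOpen_lt continuous_norm continuous_const).mem_nhds hv] with w hw
    exact one w hw
  · intro v hv
    filter_upwards [(isOpen_lt continuous_const continuous_norm).mem_nhds hv] with w hw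
    exact zero w hw

end

end Pool.Agent.VD
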