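import Pool.Agent.helper1.VD.SpecA2

/-!
# Project VD (MP_07c750_an), row AWR3: the eikonal equation up to third order
-/

set_option autoImplicit false

open scoped ContDiff Topology InnerProductSpace ComplexConjugate ENNReal
open MeasureTheory Filter Set

namespace Pool.Agent.VD

noncomputable section

variable {d : ℕ}

/-- a linear functional in coordinates -/
theorem AWR3_lin (L : V d →L[ℝ] ℝ) (v : V d) : L v = ∑ i, v i * L (EuclideanSpace.single i 1) := by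
  have h := (EuclideanSpace.basisFun (Fin d) ℝ).sum_repr v
  conv_lhs => rw [← h]
  rw [map_sum]
  refine Finset.sum_congr rfl fun i _ => ?_
  rw [map_smul, EuclideanSpace.basisFun_repr, EuclideanSpace.basisFun_apply, smul_eq_mul]

/-- the matrix of an operator -/
def AWR3_m (A : V d →L[ℝ] V d) : MC d := Matrix.of fun i j => (((A (EuclideanSpace.single j 1)) i : ℝ) : ℂ)

theorem AWR3_mv (A : V d →L[ℝ] V d) (u : V d) : (AWR3_m A).mulVec (Wcx u) = Wcx (A u) := by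
  funext i
  have h := AWR3_lin ((EuclideanSpace.proj i : V d →L[ℝ] ℝ).comp A) u
  have h' : (A u) i = ∑ j, u j * (A (EuclideanSpace.single j 1)) i := h
  unfold AWR3_m Wcx Matrix.mulVec dotProduct
  simp only [Matrix.of_apply]
  rw [h']
  push_cast
  exact Finset.sum_congr rfl fun j _ => by ring

theorem AWR3_h (A : V d →L[ℝ] V d) (a b : Fin d → ℂ) : WhE A a b = dotProduct a ((AWR3_m A).mulVec b) := by
  unfold WhE AWR3_m Matrix.mulVec dotProduct
  simp only [Matrix.of_apply, Finset.mul_sum]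
  exact Finset.sum_congr rfl fun i _ => Finset.sum_congr rfl fun j _ => by ring

theorem AWR3_hb (A : V d →L[ℝ] V d) (a : Fin d → ℂ) (u : V d) : WhE A a (Wcx u) = dotProduct a (Wcx (A u)) := by
  rw [AWR3_h, AWR3_mv]

theorem AWR3_r (A : V d →L[ℝ] V d) (u w : V d) : WhE A (Wcx w) (Wcx u) = ((⟪A u, w⟫_ℝ : ℝ) : ℂ) := by
  rw [AWR3_hb]
  unfold Wcx dotProduct
  rw [PiLp.inner_apply]
  push_cast
  refine Finset.sum_congr rfl fun i _ => ?_
  rw [← Complex.ofReal_mul]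
  congr 1

theorem AWR3_sub (A B : V d →L[ℝ] V d) (a b : Fin d → ℂ) : WhE (A - B) a b = WhE A a b - WhE B a b := by
  unfold WhE
  rw [← Finset.sum_sub_distrib]
  refine Finset.sum_congr rfl fun i _ => ?_
  rw [← Finset.sum_sub_distrib]
  refine Finset.sum_congr rfl fun j _ => ?_
  have h : ((A - B) (EuclideanSpace.single j 1)) i = (A (EuclideanSpace.single j 1)) i - (B (EuclideanSpace.single j 1)) i := rfl
  rw [h]
  push_cast
  ring

theorem AWR3_smul (c : ℝ) (A : V d →L[ℝ] V d) (a b : Fin d → ℂ) : WhE (c • A) a b = (c : ℂ) * WhE A a b := by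
  unfold WhE
  rw [Finset.mul_sum]
  refine Finset.sum_congr rfl fun i _ => ?_
  rw [Finset.mul_sum]
  refine Finset.sum_congr rfl fun j _ => ?_
  have h : ((c • A) (EuclideanSpace.single j 1)) i = c * (A (EuclideanSpace.single j 1)) i := rfl
  rw [h]
  push_cast
  ring

theorem AWR3_symm (A : V d →L[ℝ] V d) (hA : ∀ u w, ⟪A u, w⟫_ℝ = ⟪u, A w⟫_ℝ) (a b : Fin d → ℂ) : WhE A a b = WhE A b a := by
  unfold WhE
  rw [Finset.sum_comm]
  refine Finset.sum_congr rfl fun i _ => Finset.sum_congr rfl fun j _ => ?_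
  have h1 : ∀ (u : V d) (k : Fin d), ⟪u, EuclideanSpace.single k (1 : ℝ)⟫_ℝ = u k := by
    intro u k
    rw [EuclideanSpace.inner_single_right]
    simp
  have h2 : (A (EuclideanSpace.single i 1)) j = (A (EuclideanSpace.single j 1)) i := by
    rw [← h1, hA, real_inner_comm, h1]
  rw [h2]
  ring

theorem AWR3_add (A : V d →L[ℝ] V d) (a b : Fin d → ℂ) :
    WhE A (a + b) (a + b) = WhE A a a + WhE A a b + (WhE A b a + WhE A b b) := by
  rw [AWR3_h, AWR3_h, AWR3_h, AWR3_h, AWR3_h, Matrix.mulVec_add, add_dotProduct, dotProduct_add, dotProduct_add]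

theorem AWR3_qf (A : MC d) (v : V d) : qf A v = dotProduct (Wcx v) (A.mulVec (Wcx v)) := by
  unfold qf Wcx Matrix.mulVec dotProduct
  simp only [Finset.mul_sum]
  refine Finset.sum_congr rfl fun i _ => Finset.sum_congr rfl fun j _ => ?_
  push_cast
  ring

/-- the derivative of the inverse metric is symmetric -/
theorem AWR3_ds (G : V d → V d →L[ℝ] V d) (hs : ∀ x u v, ⟪IG G x u, v⟫_ℝ = ⟪u, IG G x v⟫_ℝ) (hsm : ContDiff ℝ ∞ (IG G))
    (x v u w : V d) : ⟪fderiv ℝ (IG G) x v u, w⟫_ℝ = ⟪u, fderiv ℝ (IG G) x v w⟫_ℝ := by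
  have hd : HasFDerivAt (IG G) (fderiv ℝ (IG G) x) x :=
    ((hsm.differentiable (by norm_num)) x).hasFDerivAt
  set T : (V d →L[ℝ] V d) →L[ℝ] ℝ := (innerSL ℝ w).comp (ContinuousLinearMap.apply ℝ (V d) u) -
    (innerSL ℝ u).comp (ContinuousLinearMap.apply ℝ (V d) w) with hT
  have hTa : ∀ A : V d →L[ℝ] V d, T A = ⟪w, A u⟫_ℝ - ⟪u, A w⟫_ℝ := fun A => rfl
  have h1 : HasFDerivAt (fun y => T (IG G y)) (T.comp (fderiv ℝ (IG G) x)) x := T.hasFDerivAt.comp x hd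
  have h2 : (fun y => T (IG G y)) = fun _ => (0 : ℝ) := by
    funext y
    rw [hTa, real_inner_comm, hs, sub_self]
  rw [h2] at h1
  have h3 := h1.unique (hasFDerivAt_const (0 : ℝ) x)
  have h4 : T (fderiv ℝ (IG G) x v) = 0 := by
    have := congrArg (fun L : V d →L[ℝ] ℝ => L v) h3
    simpa using this
  rw [hTa, real_inner_comm, sub_eq_zero] at h4
  exact h4

theorem AWR3_proof (hGIN : GIN_stmt) (hGXH : GXH_stmt) (hAWXH : AWXH_stmt) : AWR3_stmt := by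
  intro d G hG q M v hM
  obtain ⟨-, hs, -, hsm, -⟩ := hGIN d G hG
  obtain ⟨-, -, -, -, hx2, -, -⟩ := hGXH d G hG
  obtain ⟨a1, a2, a3, a4, -, -⟩ := hAWXH d G hG q
  have e1 : ((Ham G q : ℝ) : ℂ) = WhE (IG G q.1) (Wcx q.2) (Wcx q.2) / 2 := by
    rw [AWR3_r]
    unfold Ham
    push_cast
    rfl
  have hvel : (XH G q).1 = IG G q.1 q.2 := rfl
  have e2 : ((⟪q.2, (XH G q).1⟫_ℝ : ℝ) : ℂ) = WhE (IG G q.1) (Wcx q.2) (Wcx q.2) := by
    rw [AWR3_r, hvel, real_inner_comm]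
  have e3 : ((⟪(XH G q).2, v⟫_ℝ : ℝ) : ℂ) = - (WhE (fderiv ℝ (IG G) q.1 v) (Wcx q.2) (Wcx q.2) / 2) := by
    rw [hx2, AWR3_r]
    push_cast
    rfl
  have hWA : (WA (fderiv ℝ (XH G) q)).mulVec (Wcx v) = Wcx (fderiv ℝ (IG G) q.1 v q.2) := by
    funext k
    have h := AWR3_lin ((EuclideanSpace.proj k : V d →L[ℝ] ℝ).comp ((ContinuousLinearMap.apply ℝ (V d) q.2).comp (fderiv ℝ (IG G) q.1))) v
    have h' : (fderiv ℝ (IG G) q.1 v q.2) k = ∑ j, v j * (fderiv ℝ (IG G) q.1 (EuclideanSpace.single j 1) q.2) k := h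
    unfold Wcx Matrix.mulVec dotProduct
    rw [h']
    push_cast
    exact Finset.sum_congr rfl fun j _ => by rw [a1]; ring
  have hMv : Matrix.vecMul (Wcx v) M = M.mulVec (Wcx v) := by
    rw [← Matrix.mulVec_transpose, hM]
  have hWB : WB (fderiv ℝ (XH G) q) = AWR3_m (IG G q.1) := by
    ext i j
    rw [a2]
    rfl
  have e4 : qf (WC (fderiv ℝ (XH G) q)) v = -(1 / 2) * WhE (fderiv ℝ (fderiv ℝ (IG G)) q.1 v v) (Wcx q.2) (Wcx q.2) := by
    rw [AWR3_r]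
    have h1 : ∀ a : V d, ⟪fderiv ℝ (fderiv ℝ (IG G)) q.1 a v q.2, q.2⟫_ℝ =
        ∑ j, v j * ⟪fderiv ℝ (fderiv ℝ (IG G)) q.1 a (EuclideanSpace.single j 1) q.2, q.2⟫_ℝ := by
      intro a
      have h := AWR3_lin ((innerSL ℝ q.2).comp ((ContinuousLinearMap.apply ℝ (V d) q.2).comp (fderiv ℝ (fderiv ℝ (IG G)) q.1 a))) v
      have h' : ⟪q.2, fderiv ℝ (fderiv ℝ (IG G)) q.1 a v q.2⟫_ℝ =
        ∑ j, v j * ⟪q.2, fderiv ℝ (fderiv ℝ (IG G)) q.1 a (EuclideanSpace.single j 1) q.2⟫_ℝ := h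
      rw [real_inner_comm, h']
      exact Finset.sum_congr rfl fun j _ => by rw [real_inner_comm]
    have h2 : ∀ b : V d, ⟪fderiv ℝ (fderiv ℝ (IG G)) q.1 v b q.2, q.2⟫_ℝ =
        ∑ i, v i * ⟪fderiv ℝ (fderiv ℝ (IG G)) q.1 (EuclideanSpace.single i 1) b q.2, q.2⟫_ℝ := by
      intro b
      have h := AWR3_lin ((innerSL ℝ q.2).comp ((ContinuousLinearMap.apply ℝ (V d) q.2).comp
        ((ContinuousLinearMap.apply ℝ (V d →L[ℝ] V d) b).comp (fderiv ℝ (fderiv ℝ (IG G)) q.1)))) v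
      have h' : ⟪q.2, fderiv ℝ (fderiv ℝ (IG G)) q.1 v b q.2⟫_ℝ =
        ∑ i, v i * ⟪q.2, fderiv ℝ (fderiv ℝ (IG G)) q.1 (EuclideanSpace.single i 1) b q.2⟫_ℝ := h
      rw [real_inner_comm, h']
      exact Finset.sum_congr rfl fun j _ => by rw [real_inner_comm]
    have h3 : ⟪fderiv ℝ (fderiv ℝ (IG G)) q.1 v v q.2, q.2⟫_ℝ =
        ∑ i, ∑ j, v i * (v j * ⟪fderiv ℝ (fderiv ℝ (IG G)) q.1 (EuclideanSpace.single i 1) (EuclideanSpace.single j 1) q.2, q.2⟫_ℝ) := by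
      rw [h2 v]
      refine Finset.sum_congr rfl fun i _ => ?_
      rw [h1, Finset.mul_sum]
    rw [h3]
    unfold qf
    push_cast
    rw [Finset.mul_sum]
    refine Finset.sum_congr rfl fun i _ => ?_
    rw [Finset.mul_sum]
    refine Finset.sum_congr rfl fun j _ => ?_
    rw [a3]
    push_cast
    ring
  have e5 : qf (WD (fderiv ℝ (XH G) q) * M) v = - WhE (fderiv ℝ (IG G) q.1 v) (M.mulVec (Wcx v)) (Wcx q.2) := by
    rw [AWR3_qf, AWR3_hb, a4, ← Matrix.mulVec_mulVec, Matrix.neg_mulVec, dotProduct_neg, Matrix.dotProduct_mulVec,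
      Matrix.vecMul_transpose, hWA, dotProduct_comm]
  have e6 : qf (M * WA (fderiv ℝ (XH G) q)) v = WhE (fderiv ℝ (IG G) q.1 v) (M.mulVec (Wcx v)) (Wcx q.2) := by
    rw [AWR3_qf, AWR3_hb, ← Matrix.mulVec_mulVec, Matrix.dotProduct_mulVec, hMv, hWA]
  have e7 : qf (M * WB (fderiv ℝ (XH G) q) * M) v = WhE (IG G q.1) (M.mulVec (Wcx v)) (M.mulVec (Wcx v)) := by
    rw [AWR3_qf, AWR3_h, hWB, ← Matrix.mulVec_mulVec, ← Matrix.mulVec_mulVec, Matrix.dotProduct_mulVec, hMv]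
  have e8 : (∑ i, (M.mulVec (Wcx v)) i * ((((XH G q).1 i : ℝ)) : ℂ)) = WhE (IG G q.1) (M.mulVec (Wcx v)) (Wcx q.2) := by
    rw [AWR3_hb, hvel]
    rfl
  have e9 : qf (WC (fderiv ℝ (XH G) q) + WD (fderiv ℝ (XH G) q) * M - M * WA (fderiv ℝ (XH G) q) - M * WB (fderiv ℝ (XH G) q) * M) v =
      qf (WC (fderiv ℝ (XH G) q)) v + qf (WD (fderiv ℝ (XH G) q) * M) v - qf (M * WA (fderiv ℝ (XH G) q)) v -
        qf (M * WB (fderiv ℝ (XH G) q) * M) v := by
    simp only [AWR3_qf, Matrix.sub_mulVec, Matrix.add_mulVec, dotProduct_sub, dotProduct_add]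
  have s0 : ∀ a b, WhE (IG G q.1) a b = WhE (IG G q.1) b a := AWR3_symm _ (hs q.1)
  have sv : ∀ a b, WhE (IG G (q.1 + v)) a b = WhE (IG G (q.1 + v)) b a := AWR3_symm _ (hs (q.1 + v))
  have s1 : ∀ a b, WhE (fderiv ℝ (IG G) q.1 v) a b = WhE (fderiv ℝ (IG G) q.1 v) b a :=
    AWR3_symm _ (AWR3_ds G hs hsm q.1 v)
  rw [e9, e4, e5, e6, e7, e8, e2, e3, Complex.ofReal_add, e1, AWR3_add]
  unfold Wr3
  simp only [AWR3_sub, AWR3_smul]
  rw [sv (M.mulVec (Wcx v)) (Wcx q.2), s0 (M.mulVec (Wcx v)) (Wcx q.2), s1 (M.mulVec (Wcx v)) (Wcx q.2)]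
  push_cast
  ring

end

end Pool.Agent.VD
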